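import Pool.Agent.helper20.FX.Spec
import Pool.Agent.helper47.RA.Num

set_option autoImplicit false

namespace Pool.Agent.FXM

open Finset

theorem BAD : BAD_stmt := by
  intro ε hε
  obtain ⟨C, hC1, hC⟩ := Pool.Agent.helper47.RA.card_divisors_le ε hε
  refine ⟨C, by linarith, ?_⟩
  intro M T V hT hV
  rcases V.eq_empty_or_nonempty with he | ⟨n₀, hn₀⟩
  · rw [he, card_empty]
    have h1 : (0 : ℝ) ≤ ((M : ℝ) + T) ^ ε := by positivity
    have h2 : (0 : ℝ) ≤ C * T := by positivity
    simpa using mul_nonneg h2 h1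
  have hM : 1 ≤ M := le_trans (hV n₀ hn₀).1 (hV n₀ hn₀).2.1
  have hsub : V ⊆ (range T).biUnion (fun t => (M + t).divisors) := by
    intro n hn
    obtain ⟨h1, h2, h3⟩ := hV n hn
    rw [mem_biUnion]
    rcases h3 with h3 | h3
    · refine ⟨0, mem_range.2 (by omega), ?_⟩
      rw [Nat.mem_divisors]
      exact ⟨by rw [Nat.add_zero]; exact Nat.dvd_of_mod_eq_zero h3, by omega⟩
    · have hlt : M % n < n := Nat.mod_lt _ (by omega)
      refine ⟨n - M % n, mem_range.2 (by omega), ?_⟩
      rw [Nat.mem_divisors]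
      refine ⟨?_, by omega⟩
      have h4 : M + (n - M % n) = n * (M / n + 1) := by
        have h5 := Nat.div_add_mod M n
        rw [Nat.mul_add, Nat.mul_one]
        omega
      rw [h4]
      exact Dvd.intro _ rfl
  have hcard : V.card ≤ ∑ t ∈ range T, (M + t).divisors.card :=
    (card_le_card hsub).trans card_biUnion_le
  have hcard' : (V.card : ℝ) ≤ ∑ t ∈ range T, ((M + t).divisors.card : ℝ) := by
    exact_mod_cast hcard
  refine hcard'.trans ?_
  have hb : ∀ t ∈ range T, ((M + t).divisors.card : ℝ) ≤ C * ((M : ℝ) + T) ^ ε := by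
    intro t ht
    refine (hC (M + t) (by omega)).trans ?_
    refine mul_le_mul_of_nonneg_left ?_ (by linarith)
    refine Real.rpow_le_rpow (by positivity) ?_ hε.le
    push_cast
    have h6 : (t : ℝ) ≤ T := by exact_mod_cast (mem_range.1 ht).le
    linarith
  refine (sum_le_sum hb).trans (le_of_eq ?_)
  rw [sum_const, card_range, nsmul_eq_mul]
  ring

end Pool.Agent.FXM
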